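import Pool.Agent.N516.SC.Stm

/-!
# Project SC: the Petersen graph has no tight labelling (`S_PT`)
-/

set_option autoImplicit false

namespace Pool.Agent.N340.SC.PT

open Pool.Agent.N516.SC

instance petDec : DecidableRel pet.Adj := fun a b =>
  decidable_of_iff (a ≠ b ∧ ((a.val, b.val) ∈ [(0, 1), (1, 2), (2, 3), (3, 4), (0, 4), (0, 5),
    (1, 6), (2, 7), (3, 8), (4, 9), (5, 7), (7, 9), (6, 9), (6, 8), (5, 8)] ∨
    (b.val, a.val) ∈ [(0, 1), (1, 2), (2, 3), (3, 4), (0, 4), (0, 5),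
    (1, 6), (2, 7), (3, 8), (4, 9), (5, 7), (7, 9), (6, 9), (6, 8), (5, 8)])) Iff.rfl

variable {K : Type} [DecidableEq K]

theorem symm2 {l l' : K} (h : (symmDiff {l} {l'} : Finset K).card = 2) :
    l ≠ l' ∧ symmDiff {l} {l'} = ({l, l'} : Finset K) := by
  have hne : l ≠ l' := by
    rintro rfl
    rw [symmDiff_self] at h
    simp at h
  refine ⟨hne, ?_⟩
  ext x
  simp only [Finset.mem_symmDiff, Finset.mem_singleton, Finset.mem_insert]
  constructor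
  · tauto
  · rintro (rfl | rfl)
    · exact Or.inl ⟨rfl, hne⟩
    · exact Or.inr ⟨rfl, hne.symm⟩

theorem pair {l l' k k' : K} (h : (symmDiff {l} {l'} : Finset K) = symmDiff {k} {k'})
    (hc : (symmDiff {l} {l'} : Finset K).card = 2) :
    l ≠ l' ∧ ((k = l ∧ k' = l') ∨ (k = l' ∧ k' = l)) := by
  obtain ⟨h1, h2⟩ := symm2 hc
  rw [h] at hc
  obtain ⟨h3, h4⟩ := symm2 hc
  rw [h2, h4] at h
  refine ⟨h1, ?_⟩
  have hk : k ∈ ({l, l'} : Finset K) := by rw [h]; simp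
  have hk' : k' ∈ ({l, l'} : Finset K) := by rw [h]; simp
  simp only [Finset.mem_insert, Finset.mem_singleton] at hk hk'
  rcases hk with rfl | rfl <;> rcases hk' with rfl | rfl
  · exact absurd rfl h3
  · exact Or.inl ⟨rfl, rfl⟩
  · exact Or.inr ⟨rfl, rfl⟩
  · exact absurd rfl h3

theorem core (l0 l1 l2 l3 l4 k0 k1 k2 k3 k4 : K)
    (h0 : l0 ≠ l4 ∧ ((k0 = l0 ∧ k3 = l4) ∨ (k0 = l4 ∧ k3 = l0)))
    (h1 : l1 ≠ l0 ∧ ((k1 = l1 ∧ k4 = l0) ∨ (k1 = l0 ∧ k4 = l1)))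
    (h2 : l2 ≠ l1 ∧ ((k2 = l2 ∧ k0 = l1) ∨ (k2 = l1 ∧ k0 = l2)))
    (h3 : l3 ≠ l2 ∧ ((k3 = l3 ∧ k1 = l2) ∨ (k3 = l2 ∧ k1 = l3)))
    (h4 : l4 ≠ l3 ∧ ((k4 = l4 ∧ k2 = l3) ∨ (k4 = l3 ∧ k2 = l4))) : False := by
  obtain ⟨n0, h0⟩ := h0
  obtain ⟨n1, h1⟩ := h1
  obtain ⟨n2, h2⟩ := h2
  obtain ⟨n3, h3⟩ := h3
  obtain ⟨n4, h4⟩ := h4
  rcases h0 with ⟨a0, b0⟩ | ⟨a0, b0⟩ <;> rcases h1 with ⟨a1, b1⟩ | ⟨a1, b1⟩ <;>
    rcases h2 with ⟨a2, b2⟩ | ⟨a2, b2⟩ <;> rcases h3 with ⟨a3, b3⟩ | ⟨a3, b3⟩ <;>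
    rcases h4 with ⟨a4, b4⟩ | ⟨a4, b4⟩ <;> grind

/-- a structure of the form of the Petersen graph with the spokes `v i`, `w i` -/
def Str (v w : Fin 5 → Fin 10) : Prop :=
  ∀ i, pet.Adj (v i) (v (i + 1)) ∧ pet.Adj (v i) (v (i - 1)) ∧ pet.Adj (v i) (w i) ∧
    pet.Adj (w i) (w (i + 2)) ∧ pet.Adj (w i) (w (i - 2)) ∧ pet.Adj (w i) (v i) ∧
    v (i + 1) ≠ v (i - 1) ∧ v (i + 1) ≠ w i ∧ v (i - 1) ≠ w i ∧
    w (i + 2) ≠ w (i - 2) ∧ w (i + 2) ≠ v i ∧ w (i - 2) ≠ v i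

theorem main (L : Fin 10 → Fin 10 → Finset K) (hL : ∀ v w, L v w = L w v)
    (hT : ∀ v, TightAt pet L v) (v w : Fin 5 → Fin 10) (hs : Str v w)
    (hc : ∀ i, (L (v i) (w i)).card = 2) : False := by
  have h1 : ∀ i, Tri (L (v i) (v (i + 1))) (L (v i) (v (i - 1))) (L (v i) (w i)) := by
    intro i
    obtain ⟨a1, a2, a3, a4, a5, a6, b1, b2, b3, b4, b5, b6⟩ := hs i
    exact hT (v i) _ _ _ b1 b2 b3 a1 a2 a3
  have h2 : ∀ i, Tri (L (w i) (w (i + 2))) (L (w i) (w (i - 2))) (L (w i) (v i)) := by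
    intro i
    obtain ⟨a1, a2, a3, a4, a5, a6, b1, b2, b3, b4, b5, b6⟩ := hs i
    exact hT (w i) _ _ _ b4 b5 b6 a4 a5 a6
  have c1 : ∀ i, ∃ l, L (v i) (v (i + 1)) = {l} := by
    intro i
    obtain ⟨-, t2, t3, t4, t5⟩ := h1 i
    rw [hc i] at t5
    have e2 := Finset.card_pos.2 t2
    have e3 := Finset.card_pos.2 t3
    exact Finset.card_eq_one.1 (by omega)
  have c2 : ∀ i, ∃ l, L (w i) (w (i + 2)) = {l} := by
    intro i
    obtain ⟨-, t2, t3, t4, t5⟩ := h2 i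
    rw [hL (w i) (v i), hc i] at t5
    have e2 := Finset.card_pos.2 t2
    have e3 := Finset.card_pos.2 t3
    exact Finset.card_eq_one.1 (by omega)
  choose l hl using c1
  choose k hk using c2
  have hP : ∀ i, l i ≠ l (i - 1) ∧ ((k i = l i ∧ k (i - 2) = l (i - 1)) ∨
      (k i = l (i - 1) ∧ k (i - 2) = l i)) := by
    intro i
    have e1 : L (v i) (v (i - 1)) = {l (i - 1)} := by
      rw [hL, ← hl (i - 1), sub_add_cancel]
    have e2 : L (w i) (w (i - 2)) = {k (i - 2)} := by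
      rw [hL, ← hk (i - 2), sub_add_cancel]
    have f1 : (symmDiff {l i} {l (i - 1)} : Finset K) = L (v i) (w i) := by
      rw [← hl i, ← e1]
      exact (h1 i).1
    have f2 : (symmDiff {k i} {k (i - 2)} : Finset K) = L (v i) (w i) := by
      rw [← hk i, ← e2, hL (v i) (w i)]
      exact (h2 i).1
    exact pair (f1.trans f2.symm) (by rw [f1]; exact hc i)
  exact core (l 0) (l 1) (l 2) (l 3) (l 4) (k 0) (k 1) (k 2) (k 3) (k 4) (hP 0) (hP 1) (hP 2)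
    (hP 3) (hP 4)

theorem cards {s0 s1 s2 s3 s4 a0 a1 a2 a3 a4 t0 t1 t2 t3 t4 : ℕ}
    (p0 : 1 ≤ s0) (p1 : 1 ≤ s1) (p2 : 1 ≤ s2) (p3 : 1 ≤ s3) (p4 : 1 ≤ s4)
    (q0 : 1 ≤ a0) (q1 : 1 ≤ a1) (q2 : 1 ≤ a2) (q3 : 1 ≤ a3) (q4 : 1 ≤ a4)
    (r0 : 1 ≤ t0) (r1 : 1 ≤ t1) (r2 : 1 ≤ t2) (r3 : 1 ≤ t3) (r4 : 1 ≤ t4)
    (e0 : a0 + a4 + s0 = 4) (e1 : a1 + a0 + s1 = 4) (e2 : a2 + a1 + s2 = 4)
    (e3 : a3 + a2 + s3 = 4) (e4 : a4 + a3 + s4 = 4)
    (f0 : t0 + t3 + s0 = 4) (f1 : t1 + t4 + s1 = 4) (f2 : t2 + t0 + s2 = 4)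
    (f3 : t3 + t1 + s3 = 4) (f4 : t4 + t2 + s4 = 4) :
    (s0 = 2 ∧ s1 = 2 ∧ s2 = 2 ∧ s3 = 2 ∧ s4 = 2) ∨
    (s0 = 2 ∧ a1 = 2 ∧ a3 = 2 ∧ t1 = 2 ∧ t2 = 2) ∨
    (s1 = 2 ∧ a2 = 2 ∧ a4 = 2 ∧ t2 = 2 ∧ t3 = 2) ∨
    (s2 = 2 ∧ a3 = 2 ∧ a0 = 2 ∧ t3 = 2 ∧ t4 = 2) ∨
    (s3 = 2 ∧ a4 = 2 ∧ a1 = 2 ∧ t4 = 2 ∧ t0 = 2) ∨
    (s4 = 2 ∧ a0 = 2 ∧ a2 = 2 ∧ t0 = 2 ∧ t1 = 2) := by
  have g0 : s0 = 1 ∨ s0 = 2 := by omega
  have g1 : s1 = 1 ∨ s1 = 2 := by omega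
  have g2 : s2 = 1 ∨ s2 = 2 := by omega
  have g3 : s3 = 1 ∨ s3 = 2 := by omega
  have g4 : s4 = 1 ∨ s4 = 2 := by omega
  rcases g0 with rfl | rfl <;> rcases g1 with rfl | rfl <;> rcases g2 with rfl | rfl <;>
    rcases g3 with rfl | rfl <;> rcases g4 with rfl | rfl <;> try (exfalso; omega)
  · exact Or.inr (Or.inr (Or.inr (Or.inr (Or.inr ⟨rfl, by omega, by omega, by omega, by omega⟩))))
  · exact Or.inr (Or.inr (Or.inr (Or.inr (Or.inl ⟨rfl, by omega, by omega, by omega, by omega⟩))))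
  · exact Or.inr (Or.inr (Or.inr (Or.inl ⟨rfl, by omega, by omega, by omega, by omega⟩)))
  · exact Or.inr (Or.inr (Or.inl ⟨rfl, by omega, by omega, by omega, by omega⟩))
  · exact Or.inr (Or.inl ⟨rfl, by omega, by omega, by omega, by omega⟩)
  · exact Or.inl ⟨rfl, rfl, rfl, rfl, rfl⟩

theorem str0 : Str ![0, 1, 2, 3, 4] ![5, 6, 7, 8, 9] := by unfold Str; decide
theorem str1 : Str ![0, 1, 6, 9, 4] ![5, 2, 8, 7, 3] := by unfold Str; decide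
theorem str2 : Str ![1, 2, 7, 5, 0] ![6, 3, 9, 8, 4] := by unfold Str; decide
theorem str3 : Str ![2, 3, 8, 6, 1] ![7, 4, 5, 9, 0] := by unfold Str; decide
theorem str4 : Str ![3, 4, 9, 7, 2] ![8, 0, 6, 5, 1] := by unfold Str; decide
theorem str5 : Str ![4, 0, 5, 8, 3] ![9, 1, 7, 6, 2] := by unfold Str; decide

theorem t_PT : S_PT := by
  intro K _ L hL
  by_contra hcon
  push Not at hcon
  have sm : ∀ v a b c : Fin 10, a ≠ b → a ≠ c → b ≠ c → pet.Adj v a → pet.Adj v b → pet.Adj v c →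
      1 ≤ (L v a).card ∧ 1 ≤ (L v b).card ∧ 1 ≤ (L v c).card ∧
      (L v a).card + (L v b).card + (L v c).card = 4 := by
    intro v a b c h1 h2 h3 h4 h5 h6
    obtain ⟨-, t2, t3, t4, t5⟩ := hcon v a b c h1 h2 h3 h4 h5 h6
    exact ⟨Finset.card_pos.2 t2, Finset.card_pos.2 t3, Finset.card_pos.2 t4, t5⟩
  have v0 := sm 0 1 4 5 (by decide) (by decide) (by decide) (by decide) (by decide) (by decide)
  have v1 := sm 1 2 0 6 (by decide) (by decide) (by decide) (by decide) (by decide) (by decide)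
  have v2 := sm 2 3 1 7 (by decide) (by decide) (by decide) (by decide) (by decide) (by decide)
  have v3 := sm 3 4 2 8 (by decide) (by decide) (by decide) (by decide) (by decide) (by decide)
  have v4 := sm 4 0 3 9 (by decide) (by decide) (by decide) (by decide) (by decide) (by decide)
  have w0 := sm 5 7 8 0 (by decide) (by decide) (by decide) (by decide) (by decide) (by decide)
  have w1 := sm 6 8 9 1 (by decide) (by decide) (by decide) (by decide) (by decide) (by decide)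
  have w2 := sm 7 9 5 2 (by decide) (by decide) (by decide) (by decide) (by decide) (by decide)
  have w3 := sm 8 5 6 3 (by decide) (by decide) (by decide) (by decide) (by decide) (by decide)
  have w4 := sm 9 6 7 4 (by decide) (by decide) (by decide) (by decide) (by decide) (by decide)
  rw [hL 1 0] at v1
  rw [hL 2 1] at v2
  rw [hL 3 2] at v3
  rw [hL 4 3] at v4
  rw [hL 5 0, hL 5 8] at w0
  rw [hL 6 1, hL 6 9] at w1
  rw [hL 7 2, hL 7 5] at w2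
  rw [hL 8 3, hL 8 6] at w3
  rw [hL 9 4, hL 9 7] at w4
  rw [hL 0 4] at v0
  rcases cards v0.2.2.1 v1.2.2.1 v2.2.2.1 v3.2.2.1 v4.2.2.1 v0.1 v1.1 v2.1 v3.1 v4.1
    w0.1 w1.1 w2.1 w3.1 w4.1 v0.2.2.2 v1.2.2.2 v2.2.2.2 v3.2.2.2 v4.2.2.2
    w0.2.2.2 w1.2.2.2 w2.2.2.2 w3.2.2.2 w4.2.2.2 with
    ⟨h0, h1, h2, h3, h4⟩ | ⟨h0, h1, h2, h3, h4⟩ | ⟨h0, h1, h2, h3, h4⟩ | ⟨h0, h1, h2, h3, h4⟩ |
    ⟨h0, h1, h2, h3, h4⟩ | ⟨h0, h1, h2, h3, h4⟩
  · exact main L hL hcon _ _ str0 (by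
      intro i; fin_cases i
      · exact h0
      · exact h1
      · exact h2
      · exact h3
      · exact h4)
  · exact main L hL hcon _ _ str1 (by
      intro i; fin_cases i
      · exact h0
      · exact h1
      · exact h3
      · show (L 9 7).card = 2
        rw [hL 9 7]; exact h4
      · show (L 4 3).card = 2
        rw [hL 4 3]; exact h2)
  · exact main L hL hcon _ _ str2 (by
      intro i; fin_cases i
      · exact h0
      · exact h1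
      · exact h3
      · show (L 5 8).card = 2
        rw [hL 5 8]; exact h4
      · show (L 0 4).card = 2
        rw [hL 0 4]; exact h2)
  · exact main L hL hcon _ _ str3 (by
      intro i; fin_cases i
      · exact h0
      · exact h1
      · exact h3
      · show (L 6 9).card = 2
        rw [hL 6 9]; exact h4
      · show (L 1 0).card = 2
        rw [hL 1 0]; exact h2)
  · exact main L hL hcon _ _ str4 (by
      intro i; fin_cases i
      · exact h0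
      · exact h1
      · exact h3
      · show (L 7 5).card = 2
        rw [hL 7 5]; exact h4
      · show (L 2 1).card = 2
        rw [hL 2 1]; exact h2)
  · exact main L hL hcon _ _ str5 (by
      intro i; fin_cases i
      · exact h0
      · exact h1
      · exact h3
      · show (L 8 6).card = 2
        rw [hL 8 6]; exact h4
      · show (L 3 2).card = 2
        rw [hL 3 2]; exact h2)

end Pool.Agent.N340.SC.PT
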